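import Pool.Agent.Y916.Sl.Stm

/-!
Project SL (helper916), job WPC: Weierstrass functions at complex points, by the identity theorem
-/

set_option autoImplicit false

open PowerSeries Filter Topology

namespace Pool.Agent.Y71.SLW

open Pool.Agent.Y113 Pool.Agent.Y916.Hy Pool.Agent.Y916.Sa Pool.Agent.Y916.Al
open Pool.Agent.Y916.Sl Pool.Agent.Y574.HE Pool.Agent.Y37.GF
open scoped PeriodPair

/-! ### size of the coefficients -/

theorem coef_bound {F : Polynomial ℤ} (hF : Good F) : ∃ E : ℕ, ∀ (g : ℕ)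
    (j : Fin (F.natDegree - 1)), (j : ℕ) ≤ 1 → ∀ m,
    ‖((coeff m (Yf F g (Sum.inl j)) : ℚ) : ℂ)‖ ≤ ((g : ℝ) + 2) ^ E * (((g : ℝ) + 2) ^ E) ^ m := by
  obtain ⟨E0, hE0⟩ := Pool.Agent.Y419.HY.t_alg F.natDegree
  obtain ⟨K, hK⟩ := phi_bound F
  refine ⟨(K + 2) * E0 + 2, fun g j hj m => ?_⟩
  have h1 := hE0 ((g + 2) ^ K) (phi F g) (by rw [phi_zero]; exact hF.pos) (phi_deg F g)
    (hK g g le_rfl)
  set B : ℝ := ((((g + 2) ^ K : ℕ) : ℝ) + 2) ^ E0 with hB
  set G : ℝ := (g : ℝ) + 2 with hG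
  have hG2 : 2 ≤ G := by
    rw [hG]
    have : (0 : ℝ) ≤ g := Nat.cast_nonneg g
    linarith
  have hB1 : 1 ≤ B := by
    rw [hB]
    refine one_le_pow₀ ?_
    have : (0 : ℝ) ≤ (((g + 2) ^ K : ℕ) : ℝ) := Nat.cast_nonneg _
    linarith
  have hBG : B ≤ G ^ ((K + 2) * E0) := by
    rw [hB, pow_mul]
    refine pow_le_pow_left₀ (by positivity) ?_ _
    push_cast
    rw [← hG, pow_add]
    have h2 : 1 ≤ G ^ K := one_le_pow₀ (by linarith)
    nlinarith [mul_nonneg (sub_nonneg.2 hG2) (sub_nonneg.2 h2)]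
  have h2 : ∀ m, |((coeff m (Rt (phi F g)) : ℚ) : ℝ)| ≤ B * B ^ m := by
    intro m
    have h3 := h1.size true m
    rw [pow_succ, mul_comm] at h3
    exact h3
  -- the series before integration
  have h3 : |((coeff m ((1 + C (g : ℚ) * X) ^ (j : ℕ) * Rt (phi F g)) : ℚ) : ℝ)| ≤
      (1 + g) * (B * B ^ m) := by
    have hg0 : (0 : ℝ) ≤ g := Nat.cast_nonneg g
    have hj' : (j : ℕ) = 0 ∨ (j : ℕ) = 1 := by omega
    rcases hj' with hj' | hj'
    · rw [hj', pow_zero, one_mul]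
      refine (h2 m).trans ?_
      have : 0 ≤ B * B ^ m := by positivity
      nlinarith
    · rw [hj', pow_one, add_mul, one_mul, map_add, mul_assoc, coeff_C_mul]
      push_cast
      refine (abs_add_le _ _).trans ?_
      have h4 : |(g : ℝ) * ((coeff m (X * Rt (phi F g)) : ℚ) : ℝ)| ≤ g * (B * B ^ m) := by
        rw [abs_mul, abs_of_nonneg hg0]
        refine mul_le_mul_of_nonneg_left ?_ hg0
        rcases m with _ | m
        · rw [coeff_zero_X_mul]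
          simp only [Rat.cast_zero, abs_zero]
          positivity
        · rw [coeff_succ_X_mul]
          refine (h2 m).trans ?_
          refine mul_le_mul_of_nonneg_left ?_ (by positivity)
          exact pow_le_pow_right₀ hB1 (Nat.le_succ m)
      linarith [h2 m]
  have h4 : coeff m (Yf F g (Sum.inl j)) = 2 * coeff m ((1 + C (g : ℚ) * X) ^ (j : ℕ) *
      Rt (phi F g)) / (2 * (m : ℚ) + (((F.natDegree : ℤ) - 2 - 2 * (j : ℕ) : ℤ) : ℚ)) := by
    change coeff m (EU _ _) = _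
    rw [coeff_EU]
  have hodd : Odd ((F.natDegree : ℤ) - 2 - 2 * (j : ℕ)) := by
    obtain ⟨k, hk⟩ := hF.odd
    refine ⟨(k : ℤ) - 1 - (j : ℕ), ?_⟩
    have hk' : (F.natDegree : ℤ) = 2 * k + 1 := by exact_mod_cast hk
    linear_combination hk'
  have h5 := den_ne hodd m
  rw [Complex.norm_ratCast, h4]
  push_cast
  rw [abs_div, abs_mul, abs_of_pos (show (0 : ℝ) < 2 by norm_num)]
  have h6 : (1 : ℝ) ≤ |2 * (m : ℝ) + ((F.natDegree : ℝ) - 2 - 2 * ((j : ℕ) : ℝ))| := by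
    have h7 : (((|2 * (m : ℚ) + (((F.natDegree : ℤ) - 2 - 2 * (j : ℕ) : ℤ) : ℚ)| : ℚ)) : ℝ) =
        |2 * (m : ℝ) + ((F.natDegree : ℝ) - 2 - 2 * ((j : ℕ) : ℝ))| := by
      push_cast
      rfl
    rw [← h7]
    exact_mod_cast h5
  refine (div_le_self (by positivity) h6).trans ?_
  have h8 : 0 ≤ B * B ^ m := by positivity
  calc 2 * |((coeff m ((1 + C (g : ℚ) * X) ^ (j : ℕ) * Rt (phi F g)) : ℚ) : ℝ)| ≤
        2 * ((1 + g) * (B * B ^ m)) := by linarith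
    _ ≤ G ^ 2 * (B * B ^ m) := by
        have hg0 : (0 : ℝ) ≤ g := Nat.cast_nonneg g
        have : 2 * (1 + (g : ℝ)) ≤ G ^ 2 := by
          rw [hG]
          nlinarith
        nlinarith
    _ ≤ G ^ 2 * (G ^ ((K + 2) * E0) * (G ^ ((K + 2) * E0 + 2)) ^ m) := by
        refine mul_le_mul_of_nonneg_left ?_ (by positivity)
        refine mul_le_mul hBG ?_ (by positivity) (by positivity)
        refine pow_le_pow_left₀ (by positivity) (hBG.trans ?_) _
        exact pow_le_pow_right₀ (by linarith) (by omega)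
    _ = _ := by
        rw [pow_add G ((K + 2) * E0) 2]
        ring

/-! ### values of power series -/

theorem evc_diff {f : ℚ⟦X⟧} {A : ℝ} (hA : 1 ≤ A)
    (hf : ∀ m, ‖((coeff m f : ℚ) : ℂ)‖ ≤ A * A ^ m) :
    DifferentiableOn ℂ (fun z => evc z f) (Metric.ball 0 (1 / (2 * A))) := by
  have hA0 : 0 < A := by linarith
  have hu : Summable fun m : ℕ => A * (1 / 2 : ℝ) ^ m := summable_geometric_two.mul_left _
  unfold evc
  refine Complex.differentiableOn_tsum_of_summable_norm hu (fun m => ?_) Metric.isOpen_ball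
    fun m w hw => ?_
  · exact (differentiable_const _ |>.mul (differentiable_id.pow m)).differentiableOn
  · rw [Metric.mem_ball, dist_zero_right] at hw
    rw [norm_mul, norm_pow]
    have h1 : A * ‖w‖ ≤ 1 / 2 := by
      rw [lt_div_iff₀ (by positivity)] at hw
      linarith
    calc ‖((coeff m f : ℚ) : ℂ)‖ * ‖w‖ ^ m ≤ A * A ^ m * ‖w‖ ^ m :=
          mul_le_mul_of_nonneg_right (hf m) (by positivity)
      _ = A * (A * ‖w‖) ^ m := by rw [mul_pow]; ring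
      _ ≤ A * (1 / 2) ^ m := by
          refine mul_le_mul_of_nonneg_left ?_ hA0.le
          exact pow_le_pow_left₀ (by positivity) h1 _

theorem evc_near {f : ℚ⟦X⟧} {A : ℝ} (hA : 1 ≤ A)
    (hf : ∀ m, ‖((coeff m f : ℚ) : ℂ)‖ ≤ A * A ^ m) {z : ℂ} (hz : ‖z‖ * (2 * A ^ 2) ≤ 1) :
    ‖evc z f - ((coeff 0 f : ℚ) : ℂ)‖ ≤ ‖z‖ * (2 * A ^ 2) := by
  have hA0 : 0 < A := by linarith
  have h1 : A * ‖z‖ ≤ 1 / 2 := by
    have h2 : A * (A * ‖z‖) ≤ 1 / 2 := by nlinarith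
    have h3 : 0 ≤ A * ‖z‖ := by positivity
    nlinarith
  have hc : Cvc z f := Cvc.of_bound hA0.le (by linarith) hf
  have h2 : evc z f - ((coeff 0 f : ℚ) : ℂ) =
      ∑' m : ℕ, ((coeff (m + 1) f : ℚ) : ℂ) * z ^ (m + 1) := by
    unfold evc
    rw [(Cvc.summable hc).tsum_eq_zero_add, pow_zero, mul_one, add_sub_cancel_left]
  rw [h2]
  have hs : HasSum (fun m : ℕ => A * (A * ‖z‖) * (1 / 2 : ℝ) ^ m) (A * (A * ‖z‖) * 2) :=
    hasSum_geometric_two.mul_left _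
  refine (tsum_of_norm_bounded hs fun m => ?_).trans (le_of_eq (by ring))
  rw [norm_mul, norm_pow]
  calc ‖((coeff (m + 1) f : ℚ) : ℂ)‖ * ‖z‖ ^ (m + 1) ≤ A * A ^ (m + 1) * ‖z‖ ^ (m + 1) :=
        mul_le_mul_of_nonneg_right (hf _) (by positivity)
    _ = A * (A * ‖z‖) * (A * ‖z‖) ^ m := by rw [pow_succ, pow_succ, mul_pow]; ring
    _ ≤ A * (A * ‖z‖) * (1 / 2) ^ m := by
        refine mul_le_mul_of_nonneg_left ?_ (by positivity)
        exact pow_le_pow_left₀ (by positivity) h1 _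

theorem evc_ev (t : ℕ) (f : ℚ⟦X⟧) : evc (1 / (t : ℂ)) f = ((ev (t : ℝ) f : ℝ) : ℂ) := by
  unfold evc ev
  rw [Complex.ofReal_tsum]
  refine tsum_congr fun m => ?_
  push_cast
  rfl

/-! ### the Weierstrass functions near `0` -/

theorem exists_lam (L : PeriodPair) : ∃ lam : ℝ, 0 < lam ∧ ∀ w ∈ Metric.ball (0 : ℂ) lam,
    w ∈ ((L.lattice : Set ℂ) \ {0})ᶜ :=
  Metric.mem_nhds_iff.1 (L.compl_lattice_sdiff_singleton_mem_nhds 0)

/-- the regular part of the zeta function at `0` -/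
noncomputable def Z0 (L : PeriodPair) (w : ℂ) : ℂ :=
  deriv (H667R3.Pi' L) w / H667R3.Pi' L w

theorem zeta_eq (L : PeriodPair) {w : ℂ} (hw : w ∉ L.lattice) : zeta L w = 1 / w + Z0 L w := by
  have hd := H667R3.differentiable_Pi' L
  have hne' : w ≠ 0 := fun h => hw (h ▸ L.lattice.zero_mem)
  have e1 : zeta L w = logDeriv (H667R3.sigma L) w := (H667R3.logDeriv_sigma L hw).symm
  have e2 : H667R3.sigma L = fun z => z * H667R3.Pi' L z := by
    funext z; exact H667R3.sigma_eq_mul L z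
  have e3 : logDeriv (fun z => z * H667R3.Pi' L z) w = logDeriv (fun z : ℂ => z) w +
      logDeriv (H667R3.Pi' L) w :=
    logDeriv_mul w hne' (H667R3.prodE2_ne_zero L hw) differentiableAt_id (hd w)
  have e4 : logDeriv (fun z : ℂ => z) w = 1 / w := by
    rw [logDeriv_apply, deriv_id'']
  rw [e1, e2, e3, e4, logDeriv_apply]
  rfl

theorem Z0_diff (L : PeriodPair) {lam : ℝ} (h : ∀ w ∈ Metric.ball (0 : ℂ) lam,
    w ∈ ((L.lattice : Set ℂ) \ {0})ᶜ) : DifferentiableOn ℂ (Z0 L) (Metric.ball 0 lam) := by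
  have hd := H667R3.differentiable_Pi' L
  have hd' : DifferentiableOn ℂ (deriv (H667R3.Pi' L)) Set.univ :=
    hd.differentiableOn.deriv isOpen_univ
  refine DifferentiableOn.div (hd'.mono (Set.subset_univ _)) hd.differentiableOn fun w hw => ?_
  by_cases h0 : w = 0
  · rw [h0, H667R3.Pi'_zero]
    exact one_ne_zero
  · exact H667R3.prodE2_ne_zero L fun h1 => h w hw ⟨h1, h0⟩

theorem P_diffOn (L : PeriodPair) {lam : ℝ} (h : ∀ w ∈ Metric.ball (0 : ℂ) lam,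
    w ∈ ((L.lattice : Set ℂ) \ {0})ᶜ) :
    DifferentiableOn ℂ (Pool.Agent.Y153.HE.P L) (Metric.ball 0 lam) :=
  (L.differentiableOn_weierstrassPExcept 0).mono fun w hw => h w hw

/-! ### the identity theorem -/

theorem ident {Ω : Set ℂ} (hΩ : IsOpen Ω) (hp : IsPreconnected Ω) (h0 : (0 : ℂ) ∈ Ω) {A : ℂ → ℂ}
    (hA : DifferentiableOn ℂ A Ω) (hz : ∀ᶠ t : ℕ in atTop, A (((√(t : ℝ))⁻¹ : ℝ) : ℂ) = 0) :
    ∀ s ∈ Ω, A s = 0 := by
  have h1 : Tendsto (fun t : ℕ => (((√(t : ℝ))⁻¹ : ℝ) : ℂ)) atTop (𝓝[≠] 0) := by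
    rw [tendsto_nhdsWithin_iff]
    constructor
    · have h2 : Tendsto (fun t : ℕ => (√(t : ℝ))⁻¹) atTop (𝓝 0) :=
        tendsto_inv_atTop_zero.comp (Real.tendsto_sqrt_atTop.comp tendsto_natCast_atTop_atTop)
      have h3 := (Complex.continuous_ofReal.tendsto (0 : ℝ)).comp h2
      rw [Complex.ofReal_zero] at h3
      exact h3
    · filter_upwards [eventually_gt_atTop 0] with t ht
      have ht0 : (0 : ℝ) < t := by exact_mod_cast ht
      have : (√(t : ℝ))⁻¹ ≠ 0 := inv_ne_zero (Real.sqrt_pos.2 ht0).ne'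
      intro h
      have h' : (((√(t : ℝ))⁻¹ : ℝ) : ℂ) = 0 := h
      exact this (Complex.ofReal_eq_zero.1 h')
  have h2 : ∃ᶠ z in 𝓝[≠] (0 : ℂ), A z = 0 := h1.frequently hz.frequently
  have h3 := (hA.analyticOnNhd hΩ).eqOn_zero_of_preconnected_of_frequently_eq_zero hp h0 h2
  exact fun s hs => h3 hs

/-- WPC -/
theorem t_wpc : S_wpc := by
  intro L a b ha hb hF i₀ i₁ hi₀ hi₁
  obtain ⟨s', X₁, hs', E₁, hE₁⟩ := principal L a b ha hb hF i₀ i₁ hi₀ hi₁
  obtain ⟨E0, hE0⟩ := coef_bound hF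
  obtain ⟨lam, hlam, hball⟩ := exists_lam L
  obtain ⟨n1, hn1⟩ : ∃ n1 : ℕ, (1 / 2 : ℝ) ^ n1 < lam ^ 2 / 4 :=
    exists_pow_lt_of_lt_one (by positivity) (by norm_num)
  refine ⟨2 * E0 + 1 + n1 + 1, fun g => ?_⟩
  set E' := 2 * E0 + 1 + n1 with hE'
  set G : ℝ := (g : ℝ) + 2 with hG
  have hG2 : 2 ≤ G := by
    rw [hG]
    have : (0 : ℝ) ≤ g := Nat.cast_nonneg g
    linarith
  set A : ℝ := G ^ E0 with hAdef
  have hA1 : 1 ≤ A := one_le_pow₀ (by linarith)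
  set U0 := Yf (Fe a b) g (Sum.inl i₀) with hU0
  set U1 := Yf (Fe a b) g (Sum.inl i₁) with hU1
  have hc0 : ∀ m, ‖((coeff m U0 : ℚ) : ℂ)‖ ≤ A * A ^ m := hE0 g i₀ (by omega)
  have hc1 : ∀ m, ‖((coeff m U1 : ℚ) : ℂ)‖ ≤ A * A ^ m := hE0 g i₁ (by omega)
  have hconst : coeff 0 U0 = 2 := by
    have h1 := (Pool.Agent.Y419.HY.t_rt (phi (Fe a b) g) (by rw [phi_zero]; exact hF.pos)).2
    have h2 : ((Fe a b).natDegree : ℤ) = 3 := by
      rw [Fe_deg]
      rfl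
    change coeff 0 (EU _ _) = _
    rw [coeff_EU, PowerSeries.coeff_zero_eq_constantCoeff_apply, map_mul, map_pow, h1, h2, hi₀]
    norm_num
  -- the domain
  set ρ : ℝ := √(1 / G ^ E') with hρ
  have hGE : 0 < G ^ E' := by positivity
  set Ω : Set ℂ := Metric.ball 0 ρ with hΩ
  have hmem : ∀ s : ℂ, s ∈ Ω → ‖s‖ ^ 2 * G ^ E' < 1 := by
    intro s hs
    rw [hΩ, Metric.mem_ball, dist_zero_right, hρ, Real.lt_sqrt (norm_nonneg _),
      lt_div_iff₀ hGE] at hs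
    exact hs
  have hmem' : ∀ s : ℂ, ‖s‖ ^ 2 * G ^ E' < 1 → s ∈ Ω := by
    intro s hs
    rw [hΩ, Metric.mem_ball, dist_zero_right, hρ, Real.lt_sqrt (norm_nonneg _),
      lt_div_iff₀ hGE]
    exact hs
  have h0Ω : (0 : ℂ) ∈ Ω := hmem' 0 (by simp)
  have hΩo : IsOpen Ω := Metric.isOpen_ball
  have hΩp : IsPreconnected Ω := (convex_ball (0 : ℂ) ρ).isPreconnected
  -- sizes on the domain
  have hz2 : ∀ s ∈ Ω, ‖s ^ 2‖ * (2 * A ^ 2) < 1 := by
    intro s hs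
    have h1 := hmem s hs
    have h2 : 2 * A ^ 2 ≤ G ^ E' := by
      rw [hE', pow_add, pow_add, pow_one, hAdef, ← pow_mul, mul_comm E0 2]
      have h3 : 1 ≤ G ^ n1 := one_le_pow₀ (by linarith)
      have h4 : 0 < G ^ (2 * E0) := by positivity
      have h5 : G ^ (2 * E0) * 2 ≤ G ^ (2 * E0) * G := mul_le_mul_of_nonneg_left hG2 h4.le
      have h6 : G ^ (2 * E0) * G ≤ G ^ (2 * E0) * G * G ^ n1 :=
        le_mul_of_one_le_right (by positivity) h3
      linarith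
    rw [norm_pow]
    exact (mul_le_mul_of_nonneg_left h2 (by positivity)).trans_lt h1
  have hsmall : ∀ s ∈ Ω, ‖s‖ ≤ lam / 2 := by
    intro s hs
    have h1 := hmem s hs
    have h2 : 2 ^ n1 ≤ G ^ E' := by
      refine (pow_le_pow_left₀ (by norm_num) hG2 n1).trans ?_
      exact pow_le_pow_right₀ (by linarith) (by omega)
    have h3 : ‖s‖ ^ 2 * 2 ^ n1 < 1 :=
      (mul_le_mul_of_nonneg_left h2 (by positivity)).trans_lt h1
    have h4 : ‖s‖ ^ 2 < (1 / 2) ^ n1 := by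
      rw [one_div, inv_pow, ← one_div, lt_div_iff₀ (by positivity)]
      exact h3
    have h5 : ‖s‖ ^ 2 ≤ (lam / 2) ^ 2 := by
      have : (lam / 2) ^ 2 = lam ^ 2 / 4 := by ring
      rw [this]
      linarith
    exact (sq_le_sq₀ (norm_nonneg _) (by positivity)).1 h5
  have hball2 : ∀ s ∈ Ω, s ^ 2 ∈ Metric.ball (0 : ℂ) (1 / (2 * A)) := by
    intro s hs
    rw [Metric.mem_ball, dist_zero_right, lt_div_iff₀ (by positivity)]
    have h1 := hz2 s hs
    have h2 : ‖s ^ 2‖ * (2 * A) ≤ ‖s ^ 2‖ * (2 * A ^ 2) := by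
      refine mul_le_mul_of_nonneg_left ?_ (norm_nonneg _)
      nlinarith
    linarith
  set u : ℂ → ℂ := fun s => evc (s ^ 2) U0 / 2 with hu
  set v : ℂ → ℂ := fun s => evc (s ^ 2) U1 / 2 with hv
  have hsq : DifferentiableOn ℂ (fun s : ℂ => s ^ 2) Ω := (differentiable_id.pow 2).differentiableOn
  have hud : DifferentiableOn ℂ u Ω :=
    ((evc_diff hA1 hc0).comp hsq hball2).div_const 2
  have hvd : DifferentiableOn ℂ v Ω :=
    ((evc_diff hA1 hc1).comp hsq hball2).div_const 2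
  have hu1 : ∀ s ∈ Ω, ‖u s - 1‖ ≤ 1 / 2 := by
    intro s hs
    have h1 : ‖evc (s ^ 2) U0 - ((coeff 0 U0 : ℚ) : ℂ)‖ ≤ 1 :=
      (evc_near hA1 hc0 (hz2 s hs).le).trans (hz2 s hs).le
    rw [hconst, Rat.cast_ofNat] at h1
    have h2 : u s - 1 = (evc (s ^ 2) U0 - 2) / 2 := by
      rw [hu]
      ring
    have h3 : ‖(2 : ℂ)‖ = 2 := by simp
    rw [h2, norm_div, h3]
    linarith
  have hu0 : ∀ s ∈ Ω, u s ≠ 0 := by
    intro s hs h
    have h1 := hu1 s hs
    rw [h, zero_sub, norm_neg, norm_one] at h1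
    norm_num at h1
  have hpb : ∀ s ∈ Ω, s * u s ∈ Metric.ball (0 : ℂ) lam := by
    intro s hs
    rw [Metric.mem_ball, dist_zero_right, norm_mul]
    have h1 : ‖u s‖ ≤ 3 / 2 := by
      have h2 : u s = (u s - 1) + 1 := by ring
      rw [h2]
      refine (norm_add_le _ _).trans ?_
      rw [norm_one]
      linarith [hu1 s hs]
    have h2 := hsmall s hs
    calc ‖s‖ * ‖u s‖ ≤ lam / 2 * (3 / 2) := mul_le_mul h2 h1 (norm_nonneg _) (by positivity)
      _ < lam := by linarith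
  have hpd : DifferentiableOn ℂ (fun s => s * u s) Ω := differentiableOn_id.mul hud
  have hPd : DifferentiableOn ℂ (fun s => Pool.Agent.Y153.HE.P L (s * u s)) Ω :=
    (P_diffOn L hball).comp hpd hpb
  have hZd : DifferentiableOn ℂ (fun s => Z0 L (s * u s)) Ω := (Z0_diff L hball).comp hpd hpb
  have hnl : ∀ s ∈ Ω, s ≠ 0 → s * u s ∉ L.lattice := by
    intro s hs hs0 h
    exact hball _ (hpb s hs) ⟨h, mul_ne_zero hs0 (hu0 s hs)⟩
  -- large integers
  have hlarge : ∀ᶠ t : ℕ in atTop, (g + 2) ^ E₁ ≤ t ∧ X₁ ≤ t ∧ 0 < t :=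
    (eventually_ge_atTop _).and ((eventually_ge_atTop _).and (eventually_gt_atTop 0))
  have hpt : ∀ t : ℕ, (g + 2) ^ E₁ ≤ t → X₁ ≤ t → 0 < t →
      ∃ σ : ℂ, σ = (((√(t : ℝ))⁻¹ : ℝ) : ℂ) ∧ σ ≠ 0 ∧ σ ^ 2 * t = 1 ∧ σ * u σ ∉ L.lattice ∧
        ℘[L] (σ * u σ) = t + g ∧ zeta L (σ * u σ) * σ = - v σ := by
    intro t h1 h2 h3
    have ht0 : (0 : ℝ) < t := by exact_mod_cast h3
    have hsq : √(t : ℝ) * √(t : ℝ) = t := Real.mul_self_sqrt ht0.le
    have hsq0 : √(t : ℝ) ≠ 0 := (Real.sqrt_pos.2 ht0).ne'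
    have htc : (t : ℂ) ≠ 0 := by exact_mod_cast ht0.ne'
    obtain ⟨e1, e2⟩ := hE₁ g t h1 g le_rfl
    obtain ⟨e3, e4⟩ := hs' (t + g) (h2.trans (Nat.le_add_right _ _))
    have hσ2 : ((((√(t : ℝ))⁻¹ : ℝ) : ℂ)) ^ 2 = 1 / (t : ℂ) := by
      rw [← Complex.ofReal_pow, inv_pow, sq, hsq]
      push_cast
      rw [one_div]
    have hσ0 : (((√(t : ℝ))⁻¹ : ℝ) : ℂ) ≠ 0 := by
      intro h
      rw [h] at hσ2
      rw [zero_pow two_ne_zero] at hσ2
      exact one_div_ne_zero htc hσ2.symm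
    have hp : (((√(t : ℝ))⁻¹ : ℝ) : ℂ) * u (((√(t : ℝ))⁻¹ : ℝ) : ℂ) = s' (t + g) := by
      rw [e1, hu]
      beta_reduce
      rw [hσ2, evc_ev]
      push_cast
      ring
    refine ⟨_, rfl, hσ0, by rw [hσ2]; field_simp, by rw [hp]; exact e3, ?_, ?_⟩
    · rw [hp, e4]
      push_cast
      rfl
    · rw [hp, e2, hv]
      beta_reduce
      rw [hσ2, evc_ev]
      have hsqc : ((√(t : ℝ) : ℝ) : ℂ) ≠ 0 := by exact_mod_cast hsq0
      push_cast
      field_simp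
      rfl
  -- the two identities
  have hA : ∀ s ∈ Ω, 1 + (s * u s) ^ 2 * Pool.Agent.Y153.HE.P L (s * u s) -
      u s ^ 2 * (1 + g * s ^ 2) = 0 := by
    refine ident hΩo hΩp h0Ω ?_ ?_
    · exact ((differentiableOn_const _).add ((hpd.pow 2).mul hPd)).sub
        ((hud.pow 2).mul ((differentiableOn_const _).add ((differentiableOn_const _).mul hsq)))
    · filter_upwards [hlarge] with t ht
      obtain ⟨σ, h1, h2, h3, h4, h5, h6⟩ := hpt t ht.1 ht.2.1 ht.2.2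
      rw [← h1]
      have hp0 : σ * u σ ≠ 0 := fun h => h4 (h ▸ L.lattice.zero_mem)
      have hus0 : u σ ≠ 0 := right_ne_zero_of_mul hp0
      have h7 := Pool.Agent.Y153.HE.wp_eq L (σ * u σ)
      rw [h5] at h7
      have h8 : (σ * u σ) ^ 2 * Pool.Agent.Y153.HE.P L (σ * u σ) =
          (σ * u σ) ^ 2 * (t + g) - 1 := by
        rw [h7]
        field_simp
        ring
      rw [h8]
      linear_combination (u σ) ^ 2 * h3
  have hB : ∀ s ∈ Ω, s * u s * Z0 L (s * u s) + 1 + u s * v s = 0 := by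
    refine ident hΩo hΩp h0Ω ?_ ?_
    · exact ((hpd.mul hZd).add (differentiableOn_const _)).add (hud.mul hvd)
    · filter_upwards [hlarge] with t ht
      obtain ⟨σ, h1, h2, h3, h4, h5, h6⟩ := hpt t ht.1 ht.2.1 ht.2.2
      rw [← h1]
      have hp0 : σ * u σ ≠ 0 := fun h => h4 (h ▸ L.lattice.zero_mem)
      have hus0 : u σ ≠ 0 := right_ne_zero_of_mul hp0
      have h7 := zeta_eq L h4
      have h8 : σ * u σ * Z0 L (σ * u σ) = σ * u σ * zeta L (σ * u σ) - 1 := by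
        rw [h7]
        field_simp
        ring
      rw [h8]
      linear_combination u σ * h6
  -- conclusion
  intro s hs0 hs
  have hsΩ : s ∈ Ω := by
    refine hmem' s ?_
    have h1 : ‖s‖ ^ 2 * G ^ E' * G ≤ 1 := by
      rw [mul_assoc, ← pow_succ]
      exact hs
    have h2 : 0 ≤ ‖s‖ ^ 2 * G ^ E' := by positivity
    nlinarith
  have hp : s * evc (s ^ 2) U0 / 2 = s * u s := by
    rw [hu]
    ring
  have hp0 : s * u s ≠ 0 := mul_ne_zero hs0 (hu0 s hsΩ)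
  have hus := hu0 s hsΩ
  have h1 := hA s hsΩ
  have h2 := hB s hsΩ
  have h3 := hnl s hsΩ hs0
  rw [hp]
  refine ⟨h3, ?_, ?_⟩
  · rw [Pool.Agent.Y153.HE.wp_eq]
    have h4 : (s * u s) ^ 2 * Pool.Agent.Y153.HE.P L (s * u s) = u s ^ 2 * (1 + g * s ^ 2) - 1 := by
      linear_combination h1
    have h5 : Pool.Agent.Y153.HE.P L (s * u s) = (u s ^ 2 * (1 + g * s ^ 2) - 1) / (s * u s) ^ 2 := by
      rw [← h4]
      field_simp
    rw [h5]
    field_simp
    ring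
  · rw [zeta_eq L h3]
    have h4 : Z0 L (s * u s) = (-1 - u s * v s) / (s * u s) := by
      rw [eq_div_iff hp0]
      linear_combination h2
    have h5 : -evc (s ^ 2) U1 / (2 * s) = - v s / s := by
      rw [hv]
      field_simp
    rw [h4, h5]
    field_simp
    ring

end Pool.Agent.Y71.SLW
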